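import Mathlib

/-!
# MP_0132f6: proportional 0-1 sequences of arbitrarily large length

For every `v ≥ 1` there is a proportional sequence of length `n = 4608 v^2`. In `±1` form the
sequence is antisymmetric, `x_(n+1-i) = -x_i`, which kills four of the seven character sums (up to
the relations between them); the remaining three conditions are
`(sum over one parity class)^2 = n/2`, a linear condition and a quadratic condition. The sequence
consists of blocks of length 4, which are `PMPM` and `MPMP` alternately (`P` for `1`, `M` for `-1`),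
except for `24 v` blocks `PPPP`, `36 v` blocks `MMMM` and `12 v` blocks `PMPM` in the first half and
their mirror images.
-/

set_option autoImplicit false

namespace Pool.Agent.Results.MP_0132f6_co.InfinitelyMany

open Finset

/-- The 3-term progressions `(a, a+d, a+2d)`, `d ≥ 1`, in `{0, …, n-1}`, as pairs `(a, d)`. -/
def Prog (n : ℕ) : Finset (ℕ × ℕ) :=
  (range n ×ˢ range n).filter fun p => 1 ≤ p.2 ∧ p.1 + 2 * p.2 < n

/-- The sequence `x 0, …, x (n-1)` is proportional: each of the eight types is the type of exactly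
one eighth of the progressions. -/
def Proportional (n : ℕ) (x : ℕ → Bool) : Prop :=
  ∀ t : Bool × Bool × Bool,
    8 * ((Prog n).filter fun p => (x p.1, x (p.1 + p.2), x (p.1 + 2 * p.2)) = t).card =
      (Prog n).card

/-! ### Sums over progressions -/

theorem mem_prog {n : ℕ} {p : ℕ × ℕ} : p ∈ Prog n ↔ 1 ≤ p.2 ∧ p.1 + 2 * p.2 < n := by
  unfold Prog
  rw [mem_filter, mem_product, mem_range, mem_range]
  constructor
  · rintro ⟨_, h⟩; exact h
  · rintro ⟨h1, h2⟩; exact ⟨⟨by omega, by omega⟩, h1, h2⟩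

theorem sum_prog (n : ℕ) (F : ℕ → ℕ → ℤ) : ∑ p ∈ Prog n, F p.1 p.2 =
    ∑ a ∈ range n, ∑ d ∈ Icc 1 ((n - 1 - a) / 2), F a d := by
  unfold Prog
  rw [sum_filter, sum_product]
  apply sum_congr rfl
  intro a ha
  rw [mem_range] at ha
  rw [← sum_filter]
  apply sum_congr _ (fun _ _ => rfl)
  ext d
  rw [mem_filter, mem_range, mem_Icc]
  simp only
  omega

theorem sum_rev (n : ℕ) (x : ℕ → ℤ) (hx : ∀ i < n, x (n - 1 - i) = -x i)
    (F : ℤ → ℤ → ℤ → ℤ) :
    ∑ p ∈ Prog n, F (x p.1) (x (p.1 + p.2)) (x (p.1 + 2 * p.2)) =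
      ∑ p ∈ Prog n, F (-x (p.1 + 2 * p.2)) (-x (p.1 + p.2)) (-x p.1) := by
  apply sum_nbij' (fun p => (n - 1 - (p.1 + 2 * p.2), p.2))
    (fun p => (n - 1 - (p.1 + 2 * p.2), p.2))
  · intro p hp
    rw [mem_prog] at hp ⊢
    simp only
    omega
  · intro p hp
    rw [mem_prog] at hp ⊢
    simp only
    omega
  · intro p hp
    rw [mem_prog] at hp
    ext
    · simp only
      omega
    · rfl
  · intro p hp
    rw [mem_prog] at hp
    ext
    · simp only
      omega
    · rfl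
  · intro p hp
    rw [mem_prog] at hp
    simp only
    rw [show n - 1 - (p.1 + 2 * p.2) + 2 * p.2 = n - 1 - p.1 by omega,
      show n - 1 - (p.1 + 2 * p.2) + p.2 = n - 1 - (p.1 + p.2) by omega,
      hx _ (by omega), hx _ (by omega), hx _ (by omega), neg_neg, neg_neg, neg_neg]

/-- partial sums -/
def X (x : ℕ → ℤ) (j : ℕ) : ℤ := ∑ i ∈ range j, x i

theorem X_succ (x : ℕ → ℤ) (j : ℕ) : X x (j + 1) = X x j + x j := sum_range_succ _ _

theorem sum_shift (x : ℕ → ℤ) (a m : ℕ) :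
    ∑ d ∈ Icc 1 m, x (a + d) = X x (a + m + 1) - X x (a + 1) := by
  induction m with
  | zero => simp
  | succ m ih =>
    rw [sum_Icc_succ_top (by omega), ih, show a + (m + 1) + 1 = (a + m + 1) + 1 by ring,
      X_succ x (a + m + 1)]
    ring

theorem sum_pairs (m : ℕ) (φ : ℕ → ℤ) :
    ∑ i ∈ range (2 * m), φ i = ∑ k ∈ range m, (φ (2 * k) + φ (2 * k + 1)) := by
  induction m with
  | zero => rfl
  | succ m ih =>
    rw [show 2 * (m + 1) = 2 * m + 1 + 1 by ring, sum_range_succ, sum_range_succ, ih,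
      sum_range_succ]
    ring

theorem sum_quads (m : ℕ) (φ : ℕ → ℤ) :
    ∑ i ∈ range (4 * m), φ i =
      ∑ k ∈ range m, (φ (4 * k) + φ (4 * k + 1) + φ (4 * k + 2) + φ (4 * k + 3)) := by
  induction m with
  | zero => rfl
  | succ m ih =>
    rw [show 4 * (m + 1) = 4 * m + 1 + 1 + 1 + 1 by ring, sum_range_succ, sum_range_succ,
      sum_range_succ, sum_range_succ, ih, sum_range_succ]
    ring

theorem sum_self (z : ℕ → ℤ) (h1 : ∀ i, z i * z i = 1) (m : ℕ) :
    2 * ∑ k ∈ range m, z k * X z (k + 1) = X z m * X z m + m := by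
  induction m with
  | zero => simp [X]
  | succ m ih =>
    rw [sum_range_succ, mul_add, ih, X_succ]
    push_cast
    linear_combination h1 m

/-- `∑_{i<j} z_i z_j` -/
theorem sum_lt (z : ℕ → ℤ) (h1 : ∀ i, z i * z i = 1) (m : ℕ) :
    2 * ∑ k ∈ range m, z k * (X z m - X z (k + 1)) = X z m * X z m - m := by
  have h2 : ∑ k ∈ range m, z k * (X z m - X z (k + 1)) =
      X z m * X z m - ∑ k ∈ range m, z k * X z (k + 1) := by
    rw [show X z m * X z m = ∑ k ∈ range m, z k * X z m by rw [← sum_mul]; rfl,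
      ← sum_sub_distrib]
    apply sum_congr rfl
    intro k _
    ring
  have := sum_self z h1 m
  rw [h2]
  linarith

/-- The three remaining conditions imply proportionality. -/
theorem proportional_of (h : ℕ) (x : ℕ → ℤ) (h1 : ∀ i, x i = 1 ∨ x i = -1)
    (hx : ∀ i < 2 * h, x (2 * h - 1 - i) = -x i)
    (F1 : ∑ k ∈ range h, (x (2 * k) + x (2 * k + 1)) * ((h : ℤ) - 1 - k) = 0)
    (F2 : (∑ k ∈ range h, x (2 * k)) * (∑ k ∈ range h, x (2 * k)) = h)
    (F3 : ∑ k ∈ range h, (x (2 * k) * X x (h - k) + x (2 * k + 1) * X x (h - k - 1)) = h) :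
    Proportional (2 * h) (fun i => decide (x i = 1)) := by
  have hsq : ∀ i, x i * x i = 1 := by
    intro i; rcases h1 i with h | h <;> rw [h] <;> norm_num
  -- symmetry of the partial sums
  have hsym : ∀ k ≤ h, X x (h + k) = X x (h - k) := by
    intro k
    induction k with
    | zero => intro _; rfl
    | succ k ih =>
      intro hk
      have e1 := ih (by omega)
      rw [← add_assoc, X_succ, e1]
      have e2 := hx (h + k) (by omega)
      rw [show 2 * h - 1 - (h + k) = h - (k + 1) by omega] at e2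
      have e3 := X_succ x (h - (k + 1))
      rw [show h - (k + 1) + 1 = h - k by omega] at e3
      rw [e3, e2]
      ring
  have hX0 : X x (2 * h) = 0 := by
    have := hsym h le_rfl
    rw [show h + h = 2 * h by ring, Nat.sub_self] at this
    rw [this]
    rfl
  -- the linear sums
  have Sb : ∑ p ∈ Prog (2 * h), x (p.1 + p.2) = 0 := by
    have := sum_rev (2 * h) x hx (fun _ b _ => b)
    simp only [sum_neg_distrib] at this
    linarith
  have Sabc : ∑ p ∈ Prog (2 * h), x p.1 * x (p.1 + p.2) * x (p.1 + 2 * p.2) = 0 := by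
    have := sum_rev (2 * h) x hx (fun a b c => a * b * c)
    have e : ∑ p ∈ Prog (2 * h), -x (p.1 + 2 * p.2) * -x (p.1 + p.2) * -x p.1 =
        -∑ p ∈ Prog (2 * h), x p.1 * x (p.1 + p.2) * x (p.1 + 2 * p.2) := by
      rw [← sum_neg_distrib]
      apply sum_congr rfl
      intro p _
      ring
    rw [e] at this
    linarith
  have Sa : ∑ p ∈ Prog (2 * h), x p.1 = 0 := by
    rw [sum_prog (2 * h) (fun a _ => x a)]
    have e : ∀ a ∈ range (2 * h), ∑ d ∈ Icc 1 ((2 * h - 1 - a) / 2), x a =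
        x a * (((2 * h - 1 - a) / 2 : ℕ) : ℤ) := by
      intro a _
      rw [sum_const, Nat.card_Icc, Nat.add_sub_cancel, nsmul_eq_mul, mul_comm]
    rw [sum_congr rfl e, sum_pairs, ← F1]
    apply sum_congr rfl
    intro k hk
    rw [mem_range] at hk
    rw [show (2 * h - 1 - 2 * k) / 2 = h - 1 - k by omega,
      show (2 * h - 1 - (2 * k + 1)) / 2 = h - 1 - k by omega]
    have e2 : ((h - 1 - k : ℕ) : ℤ) = (h : ℤ) - 1 - k := by omega
    rw [e2]
    ring
  have Sc : ∑ p ∈ Prog (2 * h), x (p.1 + 2 * p.2) = 0 := by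
    have := sum_rev (2 * h) x hx (fun _ _ c => c)
    simp only [sum_neg_distrib] at this
    rw [Sa] at this
    linarith
  -- the sum over (first, third)
  have Sac : ∑ p ∈ Prog (2 * h), x p.1 * x (p.1 + 2 * p.2) = 0 := by
    obtain ⟨ze, hze⟩ : ∃ ze : ℕ → ℤ, ze = fun i => x (2 * i) := ⟨_, rfl⟩
    obtain ⟨zo, hzo⟩ : ∃ zo : ℕ → ℤ, zo = fun i => x (2 * i + 1) := ⟨_, rfl⟩
    rw [sum_prog (2 * h) (fun a d => x a * x (a + 2 * d)), sum_pairs]
    have e1 : ∀ k ∈ range h,
        (∑ d ∈ Icc 1 ((2 * h - 1 - 2 * k) / 2), x (2 * k) * x (2 * k + 2 * d) +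
          ∑ d ∈ Icc 1 ((2 * h - 1 - (2 * k + 1)) / 2), x (2 * k + 1) * x (2 * k + 1 + 2 * d)) =
        ze k * (X ze h - X ze (k + 1)) + zo k * (X zo h - X zo (k + 1)) := by
      intro k hk
      rw [mem_range] at hk
      rw [show (2 * h - 1 - 2 * k) / 2 = h - 1 - k by omega,
        show (2 * h - 1 - (2 * k + 1)) / 2 = h - 1 - k by omega, ← mul_sum, ← mul_sum]
      have g1 := sum_shift ze k (h - 1 - k)
      have g2 := sum_shift zo k (h - 1 - k)
      rw [show k + (h - 1 - k) + 1 = h by omega] at g1 g2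
      rw [← g1, ← g2]
      have q1 : ∑ d ∈ Icc 1 (h - 1 - k), x (2 * k + 2 * d) = ∑ d ∈ Icc 1 (h - 1 - k), ze (k + d) :=
        sum_congr rfl fun d _ => by rw [hze]; simp only []; rw [mul_add]
      have q2 : ∑ d ∈ Icc 1 (h - 1 - k), x (2 * k + 1 + 2 * d) =
          ∑ d ∈ Icc 1 (h - 1 - k), zo (k + d) :=
        sum_congr rfl fun d _ => by
          rw [hzo]
          show x _ = x _
          congr 1
          ring
      rw [q1, q2, hze, hzo]
    rw [sum_congr rfl e1, sum_add_distrib]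
    have g1 := sum_lt ze (fun i => by rw [hze]; exact hsq _) h
    have g2 := sum_lt zo (fun i => by rw [hzo]; exact hsq _) h
    have g3 : X ze h + X zo h = 0 := by
      rw [← hX0, hze, hzo]
      unfold X
      rw [sum_pairs, sum_add_distrib]
    have g4 : X ze h * X ze h = h := by rw [hze]; exact F2
    have g5 : X zo h = -X ze h := by linarith
    have g6 : X zo h * X zo h = h := by rw [g5, neg_mul_neg, g4]
    rw [g4] at g1
    rw [g6] at g2
    linarith
  -- the sum over (first, second)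
  have Sab : ∑ p ∈ Prog (2 * h), x p.1 * x (p.1 + p.2) = 0 := by
    rw [sum_prog (2 * h) (fun a d => x a * x (a + d))]
    have e1 : ∀ a ∈ range (2 * h), ∑ d ∈ Icc 1 ((2 * h - 1 - a) / 2), x a * x (a + d) =
        x a * X x (a + (2 * h - 1 - a) / 2 + 1) - x a * X x (a + 1) := by
      intro a _
      rw [← mul_sum, sum_shift, mul_sub]
    rw [sum_congr rfl e1, sum_sub_distrib, sum_pairs]
    have g1 := sum_self x hsq (2 * h)
    rw [hX0] at g1
    have g2 : ∑ k ∈ range h, (x (2 * k) * X x (2 * k + (2 * h - 1 - 2 * k) / 2 + 1) +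
        x (2 * k + 1) * X x (2 * k + 1 + (2 * h - 1 - (2 * k + 1)) / 2 + 1)) = h := by
      rw [← F3]
      apply sum_congr rfl
      intro k hk
      rw [mem_range] at hk
      rw [show 2 * k + (2 * h - 1 - 2 * k) / 2 + 1 = h + k by omega,
        show 2 * k + 1 + (2 * h - 1 - (2 * k + 1)) / 2 + 1 = h + (k + 1) by omega,
        hsym k (by omega), hsym (k + 1) (by omega), Nat.sub_sub]
    rw [g2]
    push_cast at g1
    linarith
  have Sbc : ∑ p ∈ Prog (2 * h), x (p.1 + p.2) * x (p.1 + 2 * p.2) = 0 := by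
    have := sum_rev (2 * h) x hx (fun _ b c => b * c)
    rw [this, ← Sab]
    apply sum_congr rfl
    intro p _
    ring
  -- counting
  rintro ⟨t1, t2, t3⟩
  have key : ∀ p ∈ Prog (2 * h),
      (8 : ℤ) * (if ((decide (x p.1 = 1), decide (x (p.1 + p.2) = 1),
        decide (x (p.1 + 2 * p.2) = 1)) : Bool × Bool × Bool) = (t1, t2, t3) then 1 else 0) =
      (1 + (if t1 then 1 else -1) * x p.1) * (1 + (if t2 then 1 else -1) * x (p.1 + p.2)) *
        (1 + (if t3 then 1 else -1) * x (p.1 + 2 * p.2)) := by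
    intro p _
    rcases h1 p.1 with ha | ha <;> rcases h1 (p.1 + p.2) with hb | hb <;>
    rcases h1 (p.1 + 2 * p.2) with hc | hc <;> rw [ha, hb, hc] <;>
    cases t1 <;> cases t2 <;> cases t3 <;> decide
  have : (8 : ℤ) * (((Prog (2 * h)).filter fun p => ((decide (x p.1 = 1),
      decide (x (p.1 + p.2) = 1), decide (x (p.1 + 2 * p.2) = 1)) : Bool × Bool × Bool) =
      (t1, t2, t3)).card : ℤ) = ((Prog (2 * h)).card : ℤ) := by
    rw [card_filter]
    push_cast
    rw [mul_sum, sum_congr rfl key]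
    generalize (if t1 then (1 : ℤ) else -1) = s1
    generalize (if t2 then (1 : ℤ) else -1) = s2
    generalize (if t3 then (1 : ℤ) else -1) = s3
    have e : ∑ p ∈ Prog (2 * h), (1 + s1 * x p.1) * (1 + s2 * x (p.1 + p.2)) *
        (1 + s3 * x (p.1 + 2 * p.2)) = ∑ p ∈ Prog (2 * h), (1 : ℤ) +
        s1 * ∑ p ∈ Prog (2 * h), x p.1 + s2 * ∑ p ∈ Prog (2 * h), x (p.1 + p.2) +
        s3 * ∑ p ∈ Prog (2 * h), x (p.1 + 2 * p.2) +
        s1 * s2 * ∑ p ∈ Prog (2 * h), x p.1 * x (p.1 + p.2) +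
        s1 * s3 * ∑ p ∈ Prog (2 * h), x p.1 * x (p.1 + 2 * p.2) +
        s2 * s3 * ∑ p ∈ Prog (2 * h), x (p.1 + p.2) * x (p.1 + 2 * p.2) +
        s1 * s2 * s3 * ∑ p ∈ Prog (2 * h), x p.1 * x (p.1 + p.2) * x (p.1 + 2 * p.2) := by
      simp only [mul_sum, ← sum_add_distrib]
      apply sum_congr rfl
      intro p _
      ring
    rw [e, Sa, Sb, Sc, Sab, Sac, Sbc, Sabc]
    simp
  exact_mod_cast this

/-! ### The sequence -/

/-- sign of the block `b` if it is `PPPP` or `MMMM` -/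
def g (v w b : ℕ) : ℤ :=
  if 216 * w ≤ b ∧ b < 216 * w + 24 * v then 1
  else if 336 * w - 10 * v ≤ b ∧ b < 336 * w + 26 * v then -1
  else if 816 * w - 26 * v ≤ b ∧ b < 816 * w + 10 * v then 1
  else if 936 * w - 24 * v ≤ b ∧ b < 936 * w then -1
  else 0

/-- sign of the block `b` if it is `PMPM` or `MPMP` -/
def e (v w b : ℕ) : ℤ :=
  if 216 * w ≤ b ∧ b < 216 * w + 24 * v then 0
  else if 336 * w - 10 * v ≤ b ∧ b < 336 * w + 26 * v then 0
  else if 816 * w - 26 * v ≤ b ∧ b < 816 * w + 10 * v then 0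
  else if 936 * w - 24 * v ≤ b ∧ b < 936 * w then 0
  else if 216 * w + 24 * v ≤ b ∧ b < 216 * w + 36 * v then 1
  else if 936 * w - 36 * v ≤ b ∧ b < 936 * w - 24 * v then 1
  else if b < 576 * w then (if b % 2 = 0 then 1 else -1)
  else (if b % 2 = 0 then -1 else 1)

/-- the sequence in `±1` form -/
def x (v w i : ℕ) : ℤ := g v w (i / 4) + (if i % 2 = 0 then 1 else -1) * e v w (i / 4)

variable {v w : ℕ}

theorem g_e (b : ℕ) : (g v w b = 0 ∧ (e v w b = 1 ∨ e v w b = -1)) ∨
    ((g v w b = 1 ∨ g v w b = -1) ∧ e v w b = 0) := by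
  unfold g e
  split_ifs <;> simp

theorem x_val (i : ℕ) : x v w i = 1 ∨ x v w i = -1 := by
  unfold x
  rcases g_e (v := v) (w := w) (i / 4) with ⟨h1, h2 | h2⟩ | ⟨h1 | h1, h2⟩ <;> rw [h1, h2] <;>
    split_ifs <;> simp

theorem g_anti (hv : v ≤ w) {b : ℕ} (hb : b < 1152 * w) :
    g v w (1152 * w - 1 - b) = -g v w b := by
  unfold g
  split_ifs <;> first | rfl | (exfalso; omega)

theorem e_symm (hv : v ≤ w) {b : ℕ} (hb : b < 1152 * w) :
    e v w (1152 * w - 1 - b) = e v w b := by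
  unfold e
  split_ifs <;> first | rfl | (exfalso; omega)

theorem x_anti (hv : v ≤ w) {i : ℕ} (hi : i < 4608 * w) :
    x v w (4608 * w - 1 - i) = -x v w i := by
  unfold x
  rw [show (4608 * w - 1 - i) / 4 = 1152 * w - 1 - i / 4 by omega, g_anti hv (by omega),
    e_symm hv (by omega)]
  by_cases h : i % 2 = 0
  · rw [if_pos h, if_neg (by omega)]; ring
  · rw [if_neg h, if_pos (by omega)]; ring

/-- sums of indicator functions -/
theorem ind_sum (N p q : ℕ) (hq : q ≤ N) (φ : ℕ → ℤ) :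
    ∑ c ∈ range N, (if p ≤ c ∧ c < q then φ c else 0) = ∑ c ∈ Ico p q, φ c := by
  rw [← sum_filter]
  apply sum_congr _ (fun _ _ => rfl)
  ext c
  rw [mem_filter, mem_range, mem_Ico]
  omega

theorem alt_sum (p m : ℕ) : ∑ c ∈ Ico p (p + 2 * m), (if c % 2 = 0 then (-1 : ℤ) else 1) = 0 := by
  induction m with
  | zero => simp
  | succ m ih =>
    rw [show p + 2 * (m + 1) = p + 2 * m + 1 + 1 by ring, sum_Ico_succ_top (by omega),
      sum_Ico_succ_top (by omega), ih]
    by_cases h : (p + 2 * m) % 2 = 0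
    · rw [if_pos h, if_neg (by omega)]; norm_num
    · rw [if_neg h, if_pos (by omega)]; norm_num

theorem lin_sum (p m : ℕ) (A : ℤ) : ∑ c ∈ Ico p (p + m), (A - 16 * (c : ℤ)) =
    m * A - 8 * m * (2 * p + m - 1) := by
  induction m with
  | zero => simp
  | succ m ih =>
    rw [← add_assoc, sum_Ico_succ_top (by omega), ih]
    push_cast
    ring

theorem g_pair (hv : v ≤ w) {c : ℕ} : g v w (2 * c + 1) = g v w (2 * c) := by
  unfold g
  split_ifs <;> first | rfl | (exfalso; omega)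

theorem g_even (hv : v ≤ w) (c : ℕ) : g v w (2 * c) =
    (if 108 * w ≤ c ∧ c < 108 * w + 12 * v then 1 else 0) -
    (if 168 * w - 5 * v ≤ c ∧ c < 168 * w + 13 * v then 1 else 0) +
    (if 408 * w - 13 * v ≤ c ∧ c < 408 * w + 5 * v then 1 else 0) -
    (if 468 * w - 12 * v ≤ c ∧ c < 468 * w then 1 else 0) := by
  unfold g
  split_ifs <;> first | rfl | (exfalso; omega)

theorem e_pair (hv : v ≤ w) (c : ℕ) : e v w (2 * c) + e v w (2 * c + 1) =
    (if 108 * w + 12 * v ≤ c ∧ c < 108 * w + 18 * v then 2 else 0) +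
    (if 468 * w - 18 * v ≤ c ∧ c < 468 * w - 12 * v then 2 else 0) := by
  unfold e
  split_ifs <;> first | rfl | (exfalso; omega)

theorem x0 (b : ℕ) : x v w (4 * b) = g v w b + e v w b := by
  unfold x
  rw [show 4 * b / 4 = b by omega, if_pos (by omega)]
  ring

theorem x1 (b : ℕ) : x v w (4 * b + 1) = g v w b - e v w b := by
  unfold x
  rw [show (4 * b + 1) / 4 = b by omega, if_neg (by omega)]
  ring

theorem x2 (b : ℕ) : x v w (4 * b + 2) = g v w b + e v w b := by
  unfold x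
  rw [show (4 * b + 2) / 4 = b by omega, if_pos (by omega)]
  ring

theorem x3 (b : ℕ) : x v w (4 * b + 3) = g v w b - e v w b := by
  unfold x
  rw [show (4 * b + 3) / 4 = b by omega, if_neg (by omega)]
  ring

theorem F2' (hv : v ≤ w) : ∑ k ∈ range (2304 * w), x v w (2 * k) = 48 * v := by
  rw [show 2304 * w = 4 * (576 * w) by ring, sum_quads]
  have h : ∀ c ∈ range (576 * w), x v w (2 * (4 * c)) + x v w (2 * (4 * c + 1)) +
      x v w (2 * (4 * c + 2)) + x v w (2 * (4 * c + 3)) =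
      4 * ((if 108 * w ≤ c ∧ c < 108 * w + 12 * v then 1 else 0) -
        (if 168 * w - 5 * v ≤ c ∧ c < 168 * w + 13 * v then 1 else 0) +
        (if 408 * w - 13 * v ≤ c ∧ c < 408 * w + 5 * v then 1 else 0) -
        (if 468 * w - 12 * v ≤ c ∧ c < 468 * w then 1 else 0)) +
      2 * ((if 108 * w + 12 * v ≤ c ∧ c < 108 * w + 18 * v then 2 else 0) +
        (if 468 * w - 18 * v ≤ c ∧ c < 468 * w - 12 * v then 2 else 0)) := by
    intro c _
    rw [show 2 * (4 * c) = 4 * (2 * c) by ring, show 2 * (4 * c + 1) = 4 * (2 * c) + 2 by ring,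
      show 2 * (4 * c + 2) = 4 * (2 * c + 1) by ring,
      show 2 * (4 * c + 3) = 4 * (2 * c + 1) + 2 by ring, x0, x2, x0, x2, g_pair hv,
      ← g_even hv, ← e_pair hv]
    ring
  rw [sum_congr rfl h, sum_add_distrib, ← mul_sum, ← mul_sum, sum_sub_distrib, sum_add_distrib,
    sum_sub_distrib, sum_add_distrib, ind_sum _ _ _ (by omega), ind_sum _ _ _ (by omega),
    ind_sum _ _ _ (by omega), ind_sum _ _ _ (by omega), ind_sum _ _ _ (by omega),
    ind_sum _ _ _ (by omega)]
  simp only [sum_const, Nat.card_Ico, nsmul_eq_mul]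
  rw [show 108 * w + 12 * v - 108 * w = 12 * v by omega,
    show 168 * w + 13 * v - (168 * w - 5 * v) = 18 * v by omega,
    show 408 * w + 5 * v - (408 * w - 13 * v) = 18 * v by omega,
    show 468 * w - (468 * w - 12 * v) = 12 * v by omega,
    show 108 * w + 18 * v - (108 * w + 12 * v) = 6 * v by omega,
    show 468 * w - 12 * v - (468 * w - 18 * v) = 6 * v by omega]
  push_cast
  ring

theorem F1' (hv : v ≤ w) :
    ∑ k ∈ range (2304 * w), (x v w (2 * k) + x v w (2 * k + 1)) *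
      (((2304 * w : ℕ) : ℤ) - 1 - k) = 0 := by
  obtain ⟨H, hH⟩ : ∃ H : ℤ, H = ((2304 * w : ℕ) : ℤ) := ⟨_, rfl⟩
  rw [← hH]
  rw [show 2304 * w = 4 * (576 * w) by ring, sum_quads]
  have h : ∀ c ∈ range (576 * w),
      (x v w (2 * (4 * c)) + x v w (2 * (4 * c) + 1)) * (H - 1 - ((4 * c : ℕ) : ℤ)) +
      (x v w (2 * (4 * c + 1)) + x v w (2 * (4 * c + 1) + 1)) * (H - 1 - ((4 * c + 1 : ℕ) : ℤ)) +
      (x v w (2 * (4 * c + 2)) + x v w (2 * (4 * c + 2) + 1)) * (H - 1 - ((4 * c + 2 : ℕ) : ℤ)) +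
      (x v w (2 * (4 * c + 3)) + x v w (2 * (4 * c + 3) + 1)) * (H - 1 - ((4 * c + 3 : ℕ) : ℤ)) =
      2 * ((if 108 * w ≤ c ∧ c < 108 * w + 12 * v then (4 * H - 10) - 16 * (c : ℤ) else 0) -
        (if 168 * w - 5 * v ≤ c ∧ c < 168 * w + 13 * v then (4 * H - 10) - 16 * (c : ℤ) else 0) +
        (if 408 * w - 13 * v ≤ c ∧ c < 408 * w + 5 * v then (4 * H - 10) - 16 * (c : ℤ) else 0) -
        (if 468 * w - 12 * v ≤ c ∧ c < 468 * w then (4 * H - 10) - 16 * (c : ℤ) else 0)) := by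
    intro c _
    have h1 : (if 108 * w ≤ c ∧ c < 108 * w + 12 * v then (4 * H - 10) - 16 * (c : ℤ) else 0) -
        (if 168 * w - 5 * v ≤ c ∧ c < 168 * w + 13 * v then (4 * H - 10) - 16 * (c : ℤ) else 0) +
        (if 408 * w - 13 * v ≤ c ∧ c < 408 * w + 5 * v then (4 * H - 10) - 16 * (c : ℤ) else 0) -
        (if 468 * w - 12 * v ≤ c ∧ c < 468 * w then (4 * H - 10) - 16 * (c : ℤ) else 0) =
        g v w (2 * c) * ((4 * H - 10) - 16 * (c : ℤ)) := by
      rw [g_even hv]
      split_ifs <;> ring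
    rw [h1]
    rw [show 2 * (4 * c) + 1 = 4 * (2 * c) + 1 by ring,
      show 2 * (4 * c) = 4 * (2 * c) by ring,
      show 2 * (4 * c + 1) + 1 = 4 * (2 * c) + 3 by ring,
      show 2 * (4 * c + 1) = 4 * (2 * c) + 2 by ring,
      show 2 * (4 * c + 2) + 1 = 4 * (2 * c + 1) + 1 by ring,
      show 2 * (4 * c + 2) = 4 * (2 * c + 1) by ring,
      show 2 * (4 * c + 3) + 1 = 4 * (2 * c + 1) + 3 by ring,
      show 2 * (4 * c + 3) = 4 * (2 * c + 1) + 2 by ring, x0, x1, x2, x3, x0, x1, x2, x3,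
      g_pair hv]
    push_cast
    ring
  rw [sum_congr rfl h, ← mul_sum, sum_sub_distrib, sum_add_distrib, sum_sub_distrib,
    ind_sum _ _ _ (by omega), ind_sum _ _ _ (by omega), ind_sum _ _ _ (by omega),
    ind_sum _ _ _ (by omega)]
  have l1 := lin_sum (108 * w) (12 * v) (4 * H - 10)
  have l2 := lin_sum (168 * w - 5 * v) (18 * v) (4 * H - 10)
  have l3 := lin_sum (408 * w - 13 * v) (18 * v) (4 * H - 10)
  have l4 := lin_sum (468 * w - 12 * v) (12 * v) (4 * H - 10)
  rw [show 168 * w - 5 * v + 18 * v = 168 * w + 13 * v by omega] at l2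
  rw [show 408 * w - 13 * v + 18 * v = 408 * w + 5 * v by omega] at l3
  rw [show 468 * w - 12 * v + 12 * v = 468 * w by omega] at l4
  rw [l1, l2, l3, l4]
  have c2 : ((168 * w - 5 * v : ℕ) : ℤ) = 168 * w - 5 * v := by omega
  have c3 : ((408 * w - 13 * v : ℕ) : ℤ) = 408 * w - 13 * v := by omega
  have c4 : ((468 * w - 12 * v : ℕ) : ℤ) = 468 * w - 12 * v := by omega
  rw [c2, c3, c4, hH]
  push_cast
  ring

/-- partial sums at multiples of 4 -/
theorem X4 (b : ℕ) : X (x v w) (4 * b) = 4 * ∑ c ∈ range b, g v w c := by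
  unfold X
  rw [sum_quads, mul_sum]
  apply sum_congr rfl
  intro k _
  rw [x0, x1, x2, x3]
  ring

theorem G_low {b : ℕ} (hv : v ≤ w) (hb : b ≤ 216 * w) : ∑ c ∈ range b, g v w c = 0 := by
  apply sum_eq_zero
  intro c hc
  rw [mem_range] at hc
  unfold g
  split_ifs <;> first | rfl | (exfalso; omega)

theorem G_high {b : ℕ} (hv : v ≤ w) (hb : 336 * w + 26 * v ≤ b) (hb' : b ≤ 576 * w) :
    ∑ c ∈ range b, g v w c = -12 * v := by
  have h : ∀ c ∈ range b, g v w c =
      (if 216 * w ≤ c ∧ c < 216 * w + 24 * v then 1 else 0) -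
      (if 336 * w - 10 * v ≤ c ∧ c < 336 * w + 26 * v then 1 else 0) := by
    intro c hc
    rw [mem_range] at hc
    unfold g
    split_ifs <;> first | rfl | (exfalso; omega)
  rw [sum_congr rfl h, sum_sub_distrib, ind_sum _ _ _ (by omega), ind_sum _ _ _ (by omega)]
  simp only [sum_const, Nat.card_Ico, nsmul_eq_mul]
  rw [show 216 * w + 24 * v - 216 * w = 24 * v by omega,
    show 336 * w + 26 * v - (336 * w - 10 * v) = 36 * v by omega]
  push_cast
  ring

theorem F3_term (hv : v ≤ w) {c : ℕ} (hc : c < 576 * w) :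
    (x v w (2 * (4 * c)) * X (x v w) (2304 * w - 4 * c) +
      x v w (2 * (4 * c) + 1) * X (x v w) (2304 * w - 4 * c - 1)) +
    (x v w (2 * (4 * c + 1)) * X (x v w) (2304 * w - (4 * c + 1)) +
      x v w (2 * (4 * c + 1) + 1) * X (x v w) (2304 * w - (4 * c + 1) - 1)) +
    (x v w (2 * (4 * c + 2)) * X (x v w) (2304 * w - (4 * c + 2)) +
      x v w (2 * (4 * c + 2) + 1) * X (x v w) (2304 * w - (4 * c + 2) - 1)) +
    (x v w (2 * (4 * c + 3)) * X (x v w) (2304 * w - (4 * c + 3)) +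
      x v w (2 * (4 * c + 3) + 1) * X (x v w) (2304 * w - (4 * c + 3) - 1)) =
    (if 108 * w ≤ c ∧ c < 108 * w + 12 * v then
        -384 * (v : ℤ) + 4 * (if c % 2 = 0 then -1 else 1) else 0) -
    (if 168 * w - 5 * v ≤ c ∧ c < 168 * w + 13 * v then
        -384 * (v : ℤ) + 4 * (if c % 2 = 0 then -1 else 1) else 0) +
    (if 408 * w - 13 * v ≤ c ∧ c < 408 * w + 5 * v then
        4 * (if c % 2 = 0 then -1 else 1) else 0) -
    (if 468 * w - 12 * v ≤ c ∧ c < 468 * w then
        4 * (if c % 2 = 0 then -1 else 1) else 0) := by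
  obtain ⟨β, hβ⟩ : ∃ β, β = 576 * w - 1 - c := ⟨_, rfl⟩
  rw [show 2304 * w - 4 * c - 1 = 4 * β + 3 by omega, show 2304 * w - 4 * c = 4 * β + 4 by omega,
    show 2304 * w - (4 * c + 1) - 1 = 4 * β + 2 by omega,
    show 2304 * w - (4 * c + 1) = 4 * β + 3 by omega,
    show 2304 * w - (4 * c + 2) - 1 = 4 * β + 1 by omega,
    show 2304 * w - (4 * c + 2) = 4 * β + 2 by omega,
    show 2304 * w - (4 * c + 3) - 1 = 4 * β by omega,
    show 2304 * w - (4 * c + 3) = 4 * β + 1 by omega]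
  rw [show 2 * (4 * c) + 1 = 4 * (2 * c) + 1 by ring,
    show 2 * (4 * c) = 4 * (2 * c) by ring,
    show 2 * (4 * c + 1) + 1 = 4 * (2 * c) + 3 by ring,
    show 2 * (4 * c + 1) = 4 * (2 * c) + 2 by ring,
    show 2 * (4 * c + 2) + 1 = 4 * (2 * c + 1) + 1 by ring,
    show 2 * (4 * c + 2) = 4 * (2 * c + 1) by ring,
    show 2 * (4 * c + 3) + 1 = 4 * (2 * c + 1) + 3 by ring,
    show 2 * (4 * c + 3) = 4 * (2 * c + 1) + 2 by ring]
  have y1 : X (x v w) (4 * β + 1) = X (x v w) (4 * β) + (g v w β + e v w β) := by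
    rw [X_succ, x0]
  have y2 : X (x v w) (4 * β + 2) = X (x v w) (4 * β) + 2 * g v w β := by
    rw [X_succ, y1, x1]; ring
  have y3 : X (x v w) (4 * β + 3) = X (x v w) (4 * β) + 3 * g v w β + e v w β := by
    rw [X_succ, y2, x2]; ring
  have y4 : X (x v w) (4 * β + 4) = X (x v w) (4 * β) + 4 * g v w β := by
    rw [X_succ, y3, x3]; ring
  rw [y1, y2, y3, y4, x0, x1, x2, x3, x0, x1, x2, x3, g_pair hv, X4]
  have z1 : g v w (2 * c) * g v w β = 0 := by
    subst hβ
    unfold g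
    split_ifs <;> first | rfl | (exfalso; omega)
  have z2 : (e v w (2 * c) + e v w (2 * c + 1)) * g v w β = 0 := by
    subst hβ
    rw [e_pair hv]
    unfold g
    split_ifs <;> first | rfl | (exfalso; omega)
  have z3 : (g v w (2 * c) + e v w (2 * c)) * (4 * ∑ b ∈ range β, g v w b + 4 * g v w β) +
      (g v w (2 * c) - e v w (2 * c)) * (4 * ∑ b ∈ range β, g v w b + 3 * g v w β + e v w β) +
      ((g v w (2 * c) + e v w (2 * c)) * (4 * ∑ b ∈ range β, g v w b + 3 * g v w β + e v w β) +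
      (g v w (2 * c) - e v w (2 * c)) * (4 * ∑ b ∈ range β, g v w b + 2 * g v w β)) +
      ((g v w (2 * c) + e v w (2 * c + 1)) * (4 * ∑ b ∈ range β, g v w b + 2 * g v w β) +
      (g v w (2 * c) - e v w (2 * c + 1)) *
        (4 * ∑ b ∈ range β, g v w b + (g v w β + e v w β))) +
      ((g v w (2 * c) + e v w (2 * c + 1)) *
        (4 * ∑ b ∈ range β, g v w b + (g v w β + e v w β)) +
      (g v w (2 * c) - e v w (2 * c + 1)) * (4 * ∑ b ∈ range β, g v w b)) =
      g v w (2 * c) * (32 * ∑ b ∈ range β, g v w b + 4 * e v w β) := by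
    linear_combination 16 * z1 + 2 * z2
  rw [z3]
  -- the four groups
  have hs : (108 * w ≤ c ∧ c < 108 * w + 12 * v) ∨
      (168 * w - 5 * v ≤ c ∧ c < 168 * w + 13 * v) ∨
      (408 * w - 13 * v ≤ c ∧ c < 408 * w + 5 * v) ∨
      (468 * w - 12 * v ≤ c ∧ c < 468 * w) ∨
      (¬ (108 * w ≤ c ∧ c < 108 * w + 12 * v) ∧
      ¬ (168 * w - 5 * v ≤ c ∧ c < 168 * w + 13 * v) ∧
      ¬ (408 * w - 13 * v ≤ c ∧ c < 408 * w + 5 * v) ∧
      ¬ (468 * w - 12 * v ≤ c ∧ c < 468 * w)) := by tauto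
  have e0 : (108 * w ≤ c ∧ c < 108 * w + 12 * v) ∨
      (168 * w - 5 * v ≤ c ∧ c < 168 * w + 13 * v) ∨
      (408 * w - 13 * v ≤ c ∧ c < 408 * w + 5 * v) ∨
      (468 * w - 12 * v ≤ c ∧ c < 468 * w) → e v w β = if c % 2 = 0 then -1 else 1 := by
    intro hcc
    have d1 : ¬ (216 * w ≤ β ∧ β < 216 * w + 24 * v) := by omega
    have d2 : ¬ (336 * w - 10 * v ≤ β ∧ β < 336 * w + 26 * v) := by omega
    have d3 : ¬ (816 * w - 26 * v ≤ β ∧ β < 816 * w + 10 * v) := by omega
    have d4 : ¬ (936 * w - 24 * v ≤ β ∧ β < 936 * w) := by omega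
    have d5 : ¬ (216 * w + 24 * v ≤ β ∧ β < 216 * w + 36 * v) := by omega
    have d6 : ¬ (936 * w - 36 * v ≤ β ∧ β < 936 * w - 24 * v) := by omega
    have d7 : β < 576 * w := by omega
    unfold e
    rw [if_neg d1, if_neg d2, if_neg d3, if_neg d4, if_neg d5, if_neg d6, if_pos d7]
    by_cases hc2 : c % 2 = 0
    · rw [if_pos hc2, if_neg (by omega)]
    · rw [if_neg hc2, if_pos (by omega)]
  rcases hs with c1 | c2 | c3 | c4 | ⟨n1, n2, n3, n4⟩
  · have n2 : ¬ (168 * w - 5 * v ≤ c ∧ c < 168 * w + 13 * v) := by omega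
    have n3 : ¬ (408 * w - 13 * v ≤ c ∧ c < 408 * w + 5 * v) := by omega
    have n4 : ¬ (468 * w - 12 * v ≤ c ∧ c < 468 * w) := by omega
    rw [G_high hv (by omega) (by omega), g_even hv, e0 (by tauto)]
    simp only [if_pos c1, if_neg n2, if_neg n3, if_neg n4]
    ring
  · have n1 : ¬ (108 * w ≤ c ∧ c < 108 * w + 12 * v) := by omega
    have n3 : ¬ (408 * w - 13 * v ≤ c ∧ c < 408 * w + 5 * v) := by omega
    have n4 : ¬ (468 * w - 12 * v ≤ c ∧ c < 468 * w) := by omega
    rw [G_high hv (by omega) (by omega), g_even hv, e0 (by tauto)]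
    simp only [if_pos c2, if_neg n1, if_neg n3, if_neg n4]
    ring
  · have n1 : ¬ (108 * w ≤ c ∧ c < 108 * w + 12 * v) := by omega
    have n2 : ¬ (168 * w - 5 * v ≤ c ∧ c < 168 * w + 13 * v) := by omega
    have n4 : ¬ (468 * w - 12 * v ≤ c ∧ c < 468 * w) := by omega
    rw [G_low hv (by omega), g_even hv, e0 (by tauto)]
    simp only [if_pos c3, if_neg n1, if_neg n2, if_neg n4]
    ring
  · have n1 : ¬ (108 * w ≤ c ∧ c < 108 * w + 12 * v) := by omega
    have n2 : ¬ (168 * w - 5 * v ≤ c ∧ c < 168 * w + 13 * v) := by omega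
    have n3 : ¬ (408 * w - 13 * v ≤ c ∧ c < 408 * w + 5 * v) := by omega
    rw [G_low hv (by omega), g_even hv, e0 (by tauto)]
    simp only [if_pos c4, if_neg n1, if_neg n2, if_neg n3]
    ring
  · rw [g_even hv]
    simp only [if_neg n1, if_neg n2, if_neg n3, if_neg n4]
    ring

theorem F3' (hv : v ≤ w) (hw : w = v * v) :
    ∑ k ∈ range (2304 * w), (x v w (2 * k) * X (x v w) (2304 * w - k) +
      x v w (2 * k + 1) * X (x v w) (2304 * w - k - 1)) = ((2304 * w : ℕ) : ℤ) := by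
  have hq := sum_quads (576 * w) (fun k => x v w (2 * k) * X (x v w) (2304 * w - k) +
      x v w (2 * k + 1) * X (x v w) (2304 * w - k - 1))
  rw [show 4 * (576 * w) = 2304 * w by ring] at hq
  rw [hq]
  have h : ∀ c ∈ range (576 * w), _ = _ := fun c hc => F3_term hv (mem_range.1 hc)
  rw [sum_congr rfl h, sum_sub_distrib, sum_add_distrib, sum_sub_distrib,
    ind_sum _ _ _ (by omega), ind_sum _ _ _ (by omega), ind_sum _ _ _ (by omega),
    ind_sum _ _ _ (by omega)]
  simp only [sum_add_distrib, ← mul_sum, sum_const, Nat.card_Ico, nsmul_eq_mul]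
  have l1 := alt_sum (108 * w) (6 * v)
  have l2 := alt_sum (168 * w - 5 * v) (9 * v)
  have l3 := alt_sum (408 * w - 13 * v) (9 * v)
  have l4 := alt_sum (468 * w - 12 * v) (6 * v)
  rw [show 108 * w + 2 * (6 * v) = 108 * w + 12 * v by omega] at l1
  rw [show 168 * w - 5 * v + 2 * (9 * v) = 168 * w + 13 * v by omega] at l2
  rw [show 408 * w - 13 * v + 2 * (9 * v) = 408 * w + 5 * v by omega] at l3
  rw [show 468 * w - 12 * v + 2 * (6 * v) = 468 * w by omega] at l4
  rw [l1, l2, l3, l4, show 108 * w + 12 * v - 108 * w = 12 * v by omega,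
    show 168 * w + 13 * v - (168 * w - 5 * v) = 18 * v by omega, hw]
  push_cast
  ring

/-- There is a proportional sequence of length `4608 v^2` for every `v ≥ 1`; in particular there
are proportional sequences of infinitely many lengths. -/
theorem result :
    (∀ v : ℕ, 1 ≤ v → ∃ x : ℕ → Bool, Proportional (4608 * v ^ 2) x) ∧
    {n : ℕ | 3 ≤ n ∧ ∃ x : ℕ → Bool, Proportional n x}.Infinite := by
  have h1 : ∀ v : ℕ, 1 ≤ v → ∃ x : ℕ → Bool, Proportional (4608 * v ^ 2) x := by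
    intro v hv
    obtain ⟨w, hw⟩ : ∃ w, w = v * v := ⟨_, rfl⟩
    have hvw : v ≤ w := by rw [hw]; exact Nat.le_mul_of_pos_right v hv
    refine ⟨fun i => decide (x v w i = 1), ?_⟩
    rw [show 4608 * v ^ 2 = 2 * (2304 * w) by rw [hw]; ring]
    apply proportional_of (2304 * w) (x v w) (fun i => x_val i)
    · intro i hi
      rw [show 2 * (2304 * w) = 4608 * w by ring] at hi ⊢
      exact x_anti hvw hi
    · exact F1' hvw
    · rw [F2' hvw, hw]
      push_cast
      ring
    · exact F3' hvw hw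
  refine ⟨h1, ?_⟩
  apply Set.infinite_of_injective_forall_mem (f := fun k : ℕ => 4608 * (k + 1) ^ 2)
  · intro a b hab
    have : (a + 1) ^ 2 = (b + 1) ^ 2 := Nat.eq_of_mul_eq_mul_left (by norm_num) hab
    have := Nat.pow_left_injective (by norm_num : 2 ≠ 0) this
    omega
  · intro k
    refine ⟨?_, h1 (k + 1) (by omega)⟩
    have : 1 ≤ (k + 1) ^ 2 := Nat.one_le_pow _ _ (by omega)
    omega

end Pool.Agent.Results.MP_0132f6_co.InfinitelyMany
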